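import Pool.Agent.Helper79.TL.Core

/-!
# TL-B1: Hecke operators on typed elements (MP_5c3aa2_al)
-/

set_option autoImplicit false
set_option linter.unusedSectionVars false

open Module

namespace Pool.Agent.Helper79.TL.B1

open Pool.Agent.Helper79.TL GPre

section Rep

variable {K : Type} [Field K] {G : Type} [Group G] {D : GPre G} {V : Type} [AddCommGroup V]
  [Module K V] (ρ : Representation K G V) (hD : D.Good)

lemma rho_z_pow {v : V} (hv : ρ D.z v = -v) (n : ℕ) : ρ (D.z ^ n) v = ((-1 : K) ^ n) • v := by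
  induction n with
  | zero => simp
  | succ n ih =>
    rw [pow_succ', rho_mul, ih, map_smul, hv, pow_succ', smul_neg, mul_smul, neg_one_smul]

lemma tM_pow_coe (n : ℕ) (v : ↥(D.Vl ρ)) :
    (((tM ρ hD ^ n) v : ↥(D.Vl ρ)) : V) = ρ (D.t ^ n) v := by
  induction n with
  | zero => simp
  | succ n ih =>
    rw [pow_succ', Module.End.mul_apply, tM_coe, ih, pow_succ', rho_mul]

lemma sM_pow_coe (n : ℕ) (v : ↥(D.Vl ρ)) :
    (((sM ρ hD ^ n) v : ↥(D.Vl ρ)) : V) = ρ (D.s ^ n) v := by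
  induction n with
  | zero => simp
  | succ n ih =>
    rw [pow_succ', Module.End.mul_apply, sM_coe, ih, pow_succ', rho_mul]

include hD in
lemma E_t_pow (n : ℕ) (v : V) : D.E ρ (ρ (D.t ^ n) v) = ρ (D.t ^ n) (D.E ρ v) := by
  induction n with
  | zero => simp
  | succ n ih => rw [pow_succ', rho_mul, ← t_E ρ hD, ih, rho_mul]

/-- TL-B1 -/
theorem E_H {g : G} {ε k e : ℕ} (hg : D.Is g (.H ε k e)) (v : ↥(D.Vl ρ)) :
    D.E ρ (ρ g v) = ((-1 : K) ^ ε * 16) • (((tM ρ hD ^ k * sM ρ hD ^ e) v : ↥(D.Vl ρ)) : V) := by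
  obtain ⟨a, rfl⟩ := hg
  have h1 : (((tM ρ hD ^ k * sM ρ hD ^ e) v : ↥(D.Vl ρ)) : V) =
      ρ (D.t ^ k) (ρ (D.s ^ e) v) := by
    rw [Module.End.mul_apply, tM_pow_coe, sM_pow_coe]
  set u : ↥(D.Vl ρ) := (tM ρ hD ^ k * sM ρ hD ^ e) v with hu
  rw [rho_mul, rho_mul, rho_mul, ← h1, u.2.1 a, rho_z_pow ρ u.2.2, map_smul,
    E_of_mem ρ hD u.2, mul_smul]

/-- TL-B1 -/
theorem E_X {g : G} {ε k : ℕ} {l : Fin 3} {n : ℕ} (hg : D.Is g (.X ε k l n)) (v : ↥(D.Vl ρ)) :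
    D.E ρ (ρ g v) =
      ((-1 : K) ^ ε) • (((tM ρ hD ^ k * YM ρ hD l * tM ρ hD ^ n) v : ↥(D.Vl ρ)) : V) := by
  obtain ⟨a, b, rfl⟩ := hg
  have h1 : (((tM ρ hD ^ k * YM ρ hD l * tM ρ hD ^ n) v : ↥(D.Vl ρ)) : V) =
      D.E ρ (ρ (D.t ^ k) (ρ (D.x l) (ρ (D.t ^ n) v))) := by
    rw [Module.End.mul_apply, Module.End.mul_apply, tM_pow_coe, YM_coe, tM_pow_coe,
      E_t_pow ρ hD]
  rw [h1, rho_mul, rho_mul, rho_mul, rho_mul, rho_mul, v.2.1 b]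
  have h2 : ∀ u : V, ρ (D.z ^ ε) (ρ (D.r a) u) = ρ (D.r a) (ρ (D.z ^ ε) u) := by
    intro u
    rw [← rho_mul, ← rho_mul]
    congr 2
    exact (Commute.pow_left (hD.z_comm (D.r a)) ε)
  rw [h2, E_r ρ hD]
  have hcomm : ∀ (g : G) (u : V), ρ D.z (ρ g u) = ρ g (ρ D.z u) := by
    intro g u
    rw [← rho_mul, ← rho_mul, hD.z_comm]
  have hz : ρ D.z (ρ (D.t ^ k) (ρ (D.x l) (ρ (D.t ^ n) (v : V)))) =
      -(ρ (D.t ^ k) (ρ (D.x l) (ρ (D.t ^ n) (v : V)))) := by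
    rw [hcomm, hcomm, hcomm, v.2.2, map_neg, map_neg, map_neg]
  rw [rho_z_pow ρ hz, map_smul]

include hD in
/-- TL-B1 -/
theorem E_O (h2 : (2 : K) ≠ 0) {g : G} (hg : D.Is g .O) (v : ↥(D.Vl ρ)) :
    D.E ρ (ρ g v) = 0 := by
  obtain ⟨a, b, hab⟩ := hg
  have h1 : D.E ρ (ρ g v) = -D.E ρ (ρ g v) := by
    calc D.E ρ (ρ g v) = D.E ρ (ρ (D.r a) (ρ g v)) := (E_r ρ hD a _).symm
      _ = D.E ρ (ρ (D.r a * g) v) := by rw [rho_mul]
      _ = D.E ρ (ρ g (ρ D.z (ρ (D.r b) v))) := by rw [hab, rho_mul, rho_mul]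
      _ = -D.E ρ (ρ g v) := by rw [v.2.1 b, v.2.2, map_neg, map_neg]
  have h3 : (2 : K) • D.E ρ (ρ g v) = 0 := by
    rw [two_smul]
    nth_rewrite 2 [h1]
    exact add_neg_cancel _
  exact (smul_eq_zero.mp h3).resolve_left h2

end Rep

end Pool.Agent.Helper79.TL.B1
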