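import Pool.Agent.Helper79.TL.Grp2
import Pool.Agent.Helper79.TL.Defs2

set_option autoImplicit false
set_option linter.unusedSectionVars false

open Module

namespace Pool.Agent.Helper79.TL.G8

open Pool.Agent.Helper79.TL

/-- the entries of the coded matrices -/
lemma nat_apply (F : Type) [Field F] [CharP F 3] (g : ↥GG) (v : Fin 6 → F) (i : Fin 6) :
    nat F g v i = ∑ j, (ZMod.castHom (dvd_refl 3) F) (((g : U) : Matrix (Fin 6) (Fin 6) (ZMod 3)) i j) * v j := by
  change Matrix.toLin' ((((g : U) : Matrix (Fin 6) (Fin 6) (ZMod 3))).map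
    (ZMod.castHom (dvd_refl 3) F)) v i = _
  rw [Matrix.toLin'_apply, Matrix.mulVec, dotProduct]
  rfl

lemma z_entry (i j : Fin 6) : toM cz i j = if j = i then -1 else 0 := by
  revert i j; decide +kernel

lemma r_entry (a : Fin 16) (i j : Fin 6) : toM (cr a) i j = if j = i then ((sgn a i : ℤ) : ZMod 3) else 0 := by
  revert a i j; decide +kernel

lemma t_entry (i j : Fin 6) :
    toM ct i j = if j = (![4, 0, 1, 2, 3, 5] : Fin 6 → Fin 6) i then 1 else 0 := by
  revert i j; decide +kernel

lemma w_entry (i j : Fin 6) :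
    toM cw i j = if j = (![5, 4, 2, 3, 1, 0] : Fin 6 → Fin 6) i then 1 else 0 := by
  revert i j; decide +kernel

lemma x_entry (j : Fin 3) : toM (cx j) 5 5 = (![1, 1, 0] : Fin 3 → ZMod 3) j := by
  revert j; decide +kernel

theorem natRep_nat (F : Type) [Field F] [CharP F 3] : NatRep DG (nat F) where
  z v := by
    ext i
    rw [nat_apply]
    change ∑ j, (ZMod.castHom (dvd_refl 3) F) (toM cz i j) * v j = _
    simp only [z_entry, apply_ite (ZMod.castHom (dvd_refl 3) F), map_neg, map_one, map_zero, ite_mul, zero_mul]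
    rw [Finset.sum_ite_eq' Finset.univ i]
    simp
  r a v i := by
    rw [nat_apply]
    change ∑ j, (ZMod.castHom (dvd_refl 3) F) (toM (cr a) i j) * v j = _
    simp only [r_entry, apply_ite (ZMod.castHom (dvd_refl 3) F), map_intCast, map_zero, ite_mul, zero_mul]
    rw [Finset.sum_ite_eq' Finset.univ i]
    simp
  t v i := by
    rw [nat_apply]
    change ∑ j, (ZMod.castHom (dvd_refl 3) F) (toM ct i j) * v j = _
    simp only [t_entry, apply_ite (ZMod.castHom (dvd_refl 3) F), map_one, map_zero, ite_mul, zero_mul]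
    rw [Finset.sum_ite_eq' Finset.univ]
    simp
  w v i := by
    rw [nat_apply]
    change ∑ j, (ZMod.castHom (dvd_refl 3) F) (toM cw i j) * v j = _
    simp only [w_entry, apply_ite (ZMod.castHom (dvd_refl 3) F), map_one, map_zero, ite_mul, zero_mul]
    rw [Finset.sum_ite_eq' Finset.univ]
    simp
  x j := by
    rw [nat_apply]
    change ∑ k, (ZMod.castHom (dvd_refl 3) F) (toM (cx j) 5 k) * (Pi.single 5 1 : Fin 6 → F) k = _
    rw [Finset.sum_eq_single 5]
    · rw [Pi.single_eq_same, mul_one, x_entry]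
      fin_cases j <;> simp
    · intro b _ hb
      rw [Pi.single_eq_of_ne hb, mul_zero]
    · intro h; exact absurd (Finset.mem_univ _) h

end Pool.Agent.Helper79.TL.G8
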